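import Pool.Agent.Q312.Guess

/-!
MP_2c9be0_lc, Q2: there is a function computed by a weighted automaton over some semiring which is
co-guessable but not strongly co-guessable.
-/

namespace Pool.Agent.Results.MP_2c9be0_lc.CoGuessableNotStrong

open Pool.Agent.Q312.Guess

/-- There are a semiring `S` and a function `f` on the words over a two-letter alphabet, computed
by a finite weighted automaton over `S`, such that `f` is co-guessable but not strongly
co-guessable. -/
theorem result : ∃ (S : Type) (_ : Semiring S) (f : List Bool → S),
    (∃ M : WA S Bool, ∀ w, M.val w = f w) ∧ CoGuessable f ∧ ¬ StronglyCoGuessable f :=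
  ⟨GRᵐᵒᵖ, inferInstance, g, ⟨wa', wa'_val⟩, coguessable_g, not_costrong_g⟩

end Pool.Agent.Results.MP_2c9be0_lc.CoGuessableNotStrong
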