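import Pool.Agent.Q312.Guess

/-!
MP_2c9be0_lc, Q1: there is a function computed by a weighted automaton over some semiring which is
guessable but not strongly guessable.
-/

namespace Pool.Agent.Results.MP_2c9be0_lc.GuessableNotStrong

open Pool.Agent.Q312.Guess

/-- There are a semiring `S` and a function `f` on the words over a two-letter alphabet, computed
by a finite weighted automaton over `S`, such that `f` is guessable but not strongly guessable. -/
theorem result : ∃ (S : Type) (_ : Semiring S) (f : List Bool → S),
    (∃ M : WA S Bool, ∀ w, M.val w = f w) ∧ Guessable f ∧ ¬ StronglyGuessable f :=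
  ⟨GR, inferInstance, f, ⟨wa, wa_val⟩, guessable_f, not_strong_f⟩

end Pool.Agent.Results.MP_2c9be0_lc.GuessableNotStrong
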